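import Mathlib
import Pool.Agent.Helper61.JB.Main
import Pool.Agent.Helper61.JB.Size
import Pool.Agent.Helper61.JB.Abs
import Pool.Agent.Helper53.JB.GPL
import Pool.Agent.Helper31.AO.Roabp
import Pool.Agent.Helper31.AO.RoabpConv
import Pool.Agent.Helper31.AO.Sums

/-!
# Explicit hitting sets of polynomial size for limits of functions of few products

`AOR.AO r f`: the rank of `f` is at most `r` across every partition of the variables (any-order
read-once oblivious branching programs of width `r`). `JB.GP K w G`: all powers `G ^ l` have any-order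
rank at most `(l K + 1) ^ w`. `JB.IsTerm K w s d ρ T`: `T = P * ∏ j < s, G j`, all of degree at most `d`,
`P` of any-order rank at most `ρ`, the `G j` with `GP K w`. `JB.IsAlg k K w s d ρ F`: `F` is algebraic
over `ℂ[T 1, …, T m]` for terms `T i`, any number of them, no `k + 1` of them algebraically independent.
`JB.Border k K w s d ρ f`: `f` is a coefficientwise limit of such polynomials. `JB.hset n k K w s d ρ` is an
explicit (computable) finite set of integer points.

For fixed `k` and `w` the set has size polynomial in `n, K, s, d, ρ`, its points have polynomial bit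
length, and it hits every nonzero `f` of degree at most `d` in `Border`.
-/

namespace Pool.Agent.Results.MP_c2aa42_lc.BorderProducts

open MvPolynomial JB
open AOR (AO Roabp ao_of_roabp roabp_of_ao)

theorem isAlg_aeval {n k K w s d ρ : ℕ} {T : Fin k → MvPolynomial (Fin n) ℂ}
    (hT : ∀ i, IsTerm K w s d ρ (T i)) (g : MvPolynomial (Fin k) ℂ) :
    IsAlg k K w s d ρ (aeval T g) := by
  refine ⟨k, T, hT, fun J hJ => ?_, ?_⟩
  · obtain ⟨a, b, hab, h⟩ := Fintype.exists_ne_map_eq_of_card_lt J (by simp)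
    exact hab (hJ.injective (by simp only [h]))
  · have h1 : aeval T g ∈ Algebra.adjoin ℂ (Set.range T) := by
      rw [Algebra.adjoin_range_eq_range_aeval]
      exact ⟨g, rfl⟩
    exact isAlgebraic_algebraMap (⟨aeval T g, h1⟩ : Algebra.adjoin ℂ (Set.range T))

theorem ao_powers {n m e : ℕ} (p : Fin m → Fin n → Polynomial ℂ) :
    AO (m * (e + 1))
      (∑ j, (∑ i, Polynomial.aeval (X i : MvPolynomial (Fin n) ℂ) (p j i)) ^ e) := by
  have h0 := AOR.AO.sum
    (fun j : Fin m => (∑ i, Polynomial.aeval (X i : MvPolynomial (Fin n) ℂ) (p j i)) ^ e)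
    (fun _ => e + 1) fun j => by
      refine AOR.ao_pow (p j) fun x => ?_
      rw [map_pow, map_sum]
      congr 1
      refine Finset.sum_congr rfl fun i _ => ?_
      have h1 := Polynomial.aeval_algHom_apply
        (MvPolynomial.aeval x : MvPolynomial (Fin n) ℂ →ₐ[ℂ] ℂ) (X i) (p j i)
      rw [MvPolynomial.aeval_X, Polynomial.coe_aeval_eq_eval] at h1
      rw [h1]
      rfl
  have h2 : ∑ _j : Fin m, (e + 1) = m * (e + 1) := by simp
  rwa [h2] at h0

/-- Size, coordinates, hitting property; polynomials in `k` terms belong to the class; polynomials of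
degree at most `e` in `c` polynomials of any-order rank at most `v` are allowed as factors; sums of `m`
powers `e` of sums of univariate polynomials; any-order branching programs; the class without limits. -/
theorem result (k w : ℕ) :
    (∃ C : ℕ, ∀ n K s d ρ : ℕ,
      (hset n k K w s d ρ).card ≤
        C * (n + K + s + d + ρ + 2) ^ (45 * w * k + 62 * k + 15 * w + 48) ∧
      ∀ a ∈ hset n k K w s d ρ, ∀ i, |a i| ≤
        2 ^ (C * (n + K + s + d + ρ + 2) ^ (27 * w * k + 36 * k + 30 * w + 24))) ∧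
    (∀ (n K s d ρ : ℕ) (f : MvPolynomial (Fin n) ℂ), Border k K w s d ρ f → f.totalDegree ≤ d →
      f ≠ 0 → ∃ a ∈ hset n k K w s d ρ, eval (fun i => ((a i : ℤ) : ℂ)) f ≠ 0) ∧
    (∀ (n K s d ρ : ℕ) (T : Fin k → MvPolynomial (Fin n) ℂ), (∀ i, IsTerm K w s d ρ (T i)) →
      ∀ g : MvPolynomial (Fin k) ℂ, IsAlg k K w s d ρ (aeval T g)) ∧
    (∀ (n e c v : ℕ) (h : Fin c → MvPolynomial (Fin n) ℂ), (∀ i, AO v (h i)) →
      ∀ g : MvPolynomial (Fin c) ℂ, g.totalDegree ≤ e → GP e (c * v) (aeval h g)) ∧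
    (∀ (n m e : ℕ) (p : Fin m → Fin n → Polynomial ℂ), AO (m * (e + 1))
      (∑ j, (∑ i, Polynomial.aeval (X i : MvPolynomial (Fin n) ℂ) (p j i)) ^ e)) ∧
    (∀ (n v : ℕ) (f : MvPolynomial (Fin n) ℂ), AO v f ↔ ∀ σ, Roabp v σ f) ∧
    (∀ (n K s d ρ : ℕ) (F : MvPolynomial (Fin n) ℂ), IsAlg k K w s d ρ F →
      Border k K w s d ρ F) := by
  obtain ⟨C₁, h₁⟩ := card_poly k w
  obtain ⟨C₂, h₂⟩ := abs_poly k w
  refine ⟨⟨C₁ + C₂, fun n K s d ρ => ⟨(h₁ n K s d ρ).trans
    (Nat.mul_le_mul_right _ (Nat.le_add_right _ _)), fun a ha i => ?_⟩⟩,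
    fun n K s d ρ f hf hd h0 => hset_hits hf hd h0, fun n K s d ρ T hT g => isAlg_aeval hT g,
    fun n e c v h hh g hg => gp_comp hg hh, fun n m e p => ao_powers p,
    fun n v f => ⟨fun h σ => roabp_of_ao h σ, fun h => ao_of_roabp h⟩,
    fun n K s d ρ F hF => ⟨fun _ => F, fun _ => hF, fun _ => tendsto_const_nhds⟩⟩
  have h3 : 2 ^ (C₂ * (n + K + s + d + ρ + 2) ^ (27 * w * k + 36 * k + 30 * w + 24)) ≤
      2 ^ ((C₁ + C₂) * (n + K + s + d + ρ + 2) ^ (27 * w * k + 36 * k + 30 * w + 24)) :=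
    Nat.pow_le_pow_right (by norm_num) (Nat.mul_le_mul_right _ (Nat.le_add_left _ _))
  refine (h₂ n K s d ρ a ha i).trans ?_
  exact_mod_cast h3

end Pool.Agent.Results.MP_c2aa42_lc.BorderProducts
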