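import Mathlib
import Pool.Agent.Helper88.ORB.Main
import Pool.Agent.Helper88.ORB.Size
import Pool.Agent.Helper88.ORB.Abs
import Pool.Agent.Helper88.ORB.Abp
import Pool.Agent.Helper4.RK.Form

/-!
# Polynomial-size explicit hitting sets for orbits of sparse polynomials and of programs of constant width

Let `ℓ 1, …, ℓ m` be linearly independent affine forms in `x 1, …, x n`, with unknown coefficients. One explicit
(computable) finite set `hittingSet n r q w k s d` of integer points hits every nonzero polynomial of degree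
at most `d` which divides a nonzero product of polynomials of the following kinds (every factor has its own
`m` and its own forms):
* polynomials with at most `s` monomials in `ℓ 1, …, ℓ m` (orbits of sparse polynomials), of any degree;
* polynomials `g (P 1, …, P t)`, any `t` and `g`, where the `P i` are computed by programs of width `w` in the
variables `ℓ 1, …, ℓ m`, reading every variable at most `k` times at arbitrary positions, and no `r + 1` of the
`P i` are algebraically independent (orbits);
* (without change of coordinates) polynomials in products of factors `F (A 1, …, A q)`, where the `A j` are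
computed by such programs in `x 1, …, x n`, and no `r + 1` of the products are algebraically independent.

A program of width `w` is a product of `w × w` matrices, each of which depends on one variable (its entries
are univariate polynomials), between two constant vectors. For fixed `r, q, w, k` the size of the set is
polynomial in `n, s, d`, and its points have polynomial bit length.
-/

set_option autoImplicit false

namespace Pool.Agent.Results.MP_c2aa42_lc.Orbits

open MvPolynomial

/-! ### The hitting set -/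

/-- The number `T(W) = (2 W + 2) ^ (W + 1) + 1`. -/
def T (W : ℕ) : ℕ := (2 * W + 2) ^ (W + 1) + 1

/-- The numbers `C(0, t) = t` and `C(k + 1, t) = t (C(k, C(k, t² + 1)) + 1)`. -/
def cluster : ℕ → ℕ → ℕ
  | 0, t => t
  | k + 1, t => t * (cluster k (cluster k (t * t + 1)) + 1)

/-- The number `N(k, w) = C(k, T(((w + 1) ^ (2 ^ k))²) + 1) + 2`. -/
def changes (k w : ℕ) : ℕ := cluster k (T (((w + 1) ^ 2 ^ k) ^ 2) + 1) + 2

/-- The number `L(k, w) = ∑ s = 1, ..., w of N(k, w ^ s)`. -/
def level (k w : ℕ) : ℕ := ∑ s ∈ Finset.range w, changes k (w ^ (s + 1))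

/-- The number `L'(k, w) = ∑ s = 1, ..., w of N(k, w ^ s) (w ^ s + 1) ^ (2 k)`. -/
def levelOrb (k w : ℕ) : ℕ :=
  ∑ s ∈ Finset.range w, changes k (w ^ (s + 1)) * (w ^ (s + 1) + 1) ^ (2 * k)

/-- The number `M = (r + 1) q (r k + 1) w²`. -/
def params (r q w k : ℕ) : ℕ := (r + 1) * (q * ((r * k + 1) * w ^ 2))

/-- The number of blocks
`K = L'(r! r k, r! (2 w) ^ r) + 1 + r + (r + (L(M! M k, M! (2 w) ^ M) + 1 + M))`. -/
def blocks (r q w k : ℕ) : ℕ :=
  levelOrb (r.factorial * (r * k)) (r.factorial * (2 * w) ^ r) + 1 + r +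
    (r + (level ((params r q w k).factorial * (params r q w k * k))
      ((params r q w k).factorial * (2 * w) ^ params r q w k) + 1 + params r q w k))

/-- The bound `d (h + n)` for the parameters, `h` the number of points of `AOR.hittingSet n s s`. -/
def grid (n s d : ℕ) : ℕ := d * ((AOR.hittingSet n s s).card + n)

/-- The hitting set: the points with the coordinates
`∑ j < K, z j * ∏ l' ≠ l, (w' j - l') + ζ * newt t l`, where `newt` is the Newton curve through the points of
`AOR.hittingSet n s s`, `K = blocks r q w k`, and `z j, w' j, ζ, t` are in `{0, ..., grid n s d}`. -/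
def hittingSet (n r q w k s d : ℕ) : Finset (Fin n → ℤ) :=
  (Finset.univ : Finset ((Fin (grid n s d + 1) × Fin (grid n s d + 1)) ×
    (Fin (blocks r q w k) → Fin (grid n s d + 1)) ×
    (Fin (blocks r q w k) → Fin (grid n s d + 1)))).image fun c l =>
      ∑ j, ((c.2.1 j : ℕ) : ℤ) *
        ∏ l' ∈ Finset.univ.erase l, (((c.2.2 j : ℕ) : ℤ) - ((l' : ℕ) : ℤ)) +
        ((c.1.1 : ℕ) : ℤ) * JB.newt (JB.enum (AOR.hittingSet n s s)) (c.1.2 : ℕ) l

/-! ### The classes -/

/-- The affine forms with the matrix `L` and the constants `b`. -/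
noncomputable def form {m n : ℕ} (L : Matrix (Fin m) (Fin n) ℂ) (b : Fin m → ℂ) (i : Fin m) :
    MvPolynomial (Fin n) ℂ := ∑ j, C (L i j) * X j + C (b i)

/-- The orbits: the polynomials `F (ℓ 1, …, ℓ m)` with `F` in `P m` and linearly independent affine forms
`ℓ i` (their linear parts, the rows of `L`, are linearly independent), for all `m`. -/
def Orbits (n : ℕ) (P : ∀ m : ℕ, Set (MvPolynomial (Fin m) ℂ)) :
    Set (MvPolynomial (Fin n) ℂ) :=
  {f | ∃ (m : ℕ) (L : Matrix (Fin m) (Fin n) ℂ) (b : Fin m → ℂ),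
    LinearIndependent ℂ (fun i => L i) ∧ ∃ F ∈ P m, f = aeval (form L b) F}

/-- Polynomials with at most `s` monomials. -/
def Sparse (s m : ℕ) : Set (MvPolynomial (Fin m) ℂ) := {F | F.support.card ≤ s}

/-- The product `A_1(x_{v 1}) ⋯ A_N(x_{v N})` of the matrices of a list; every entry of the list is
a variable together with a `w × w` matrix of univariate polynomials. -/
noncomputable def prodMatrix {n w : ℕ}
    (L : List (Fin n × Matrix (Fin w) (Fin w) (Polynomial ℂ))) :
    Matrix (Fin w) (Fin w) (MvPolynomial (Fin n) ℂ) :=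
  (L.map fun p => p.2.map
    fun q => Polynomial.aeval (MvPolynomial.X p.1 : MvPolynomial (Fin n) ℂ) q).prod

/-- Polynomials `f = uᵀ A_1(x_{v 1}) ⋯ A_N(x_{v N}) v'` computed by programs of width `w` reading
every variable at most `k` times. -/
def Programs (n w k : ℕ) : Set (MvPolynomial (Fin n) ℂ) :=
  {f | ∃ (L : List (Fin n × Matrix (Fin w) (Fin w) (Polynomial ℂ))) (u v : Fin w → ℂ),
    (∀ i, (L.map Prod.fst).count i ≤ k) ∧
    f = ∑ i, ∑ j, MvPolynomial.C (u i) * prodMatrix L i j * MvPolynomial.C (v j)}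

/-- Polynomials in programs, where no `r + 1` of the programs are algebraically independent. -/
def Algebraic (r w k m : ℕ) : Set (MvPolynomial (Fin m) ℂ) :=
  {f | ∃ (t : ℕ) (P : Fin t → MvPolynomial (Fin m) ℂ) (g : MvPolynomial (Fin t) ℂ),
    (∀ i, P i ∈ Programs m w k) ∧
    (∀ s : Fin (r + 1) ↪ Fin t, ¬ AlgebraicIndependent ℂ fun i => P (s i)) ∧
    f = aeval P g}

/-- The factors: arbitrary polynomials in `q` polynomials of `Programs n w k`. -/
def Factors (n q w k : ℕ) : Set (MvPolynomial (Fin n) ℂ) :=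
  {f | ∃ (A : Fin q → MvPolynomial (Fin n) ℂ) (F : MvPolynomial (Fin q) ℂ),
    (∀ j, A j ∈ Programs n w k) ∧ f = MvPolynomial.aeval A F}

/-- Finite products of factors. -/
noncomputable def Products (n q w k : ℕ) : Submonoid (MvPolynomial (Fin n) ℂ) :=
  Submonoid.closure (Factors n q w k)

/-- Polynomials in products of factors, where no `r + 1` of the products are algebraically
independent (no condition if there are at most `r` products). -/
def Circuits (n r q w k : ℕ) : Set (MvPolynomial (Fin n) ℂ) :=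
  {f | ∃ (m : ℕ) (P : Fin m → MvPolynomial (Fin n) ℂ) (g : MvPolynomial (Fin m) ℂ),
    (∀ i, P i ∈ Products n q w k) ∧
    (∀ s : Fin (r + 1) ↪ Fin m, ¬ AlgebraicIndependent ℂ fun i => P (s i)) ∧
    f = MvPolynomial.aeval P g}

/-- The divisors of the nonzero finite products of polynomials of the three kinds. -/
def Divisors (n r q w k s : ℕ) : Set (MvPolynomial (Fin n) ℂ) :=
  {f | ∃ g ∈ Submonoid.closure
    (Orbits n (Sparse s) ∪ Orbits n (Algebraic r w k) ∪ Circuits n r q w k), g ≠ 0 ∧ f ∣ g}

/-- `Formula n D L f`: the polynomial `f` is computed by a formula of depth at most `D` with gates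
`+` and `×` of any fan-in, whose leaves, from left to right, are univariate polynomials in the
variables of the list `L` (a gate with a single input may pad the depth). -/
inductive Formula (n : ℕ) : ℕ → List (Fin n) → MvPolynomial (Fin n) ℂ → Prop
  | leaf (i : Fin n) (p : Polynomial ℂ) :
      Formula n 0 [i] (Polynomial.aeval (MvPolynomial.X i : MvPolynomial (Fin n) ℂ) p)
  | sum {D m : ℕ} {L : Fin m → List (Fin n)} {f : Fin m → MvPolynomial (Fin n) ℂ}
      (h : ∀ j, Formula n D (L j) (f j)) : Formula n (D + 1) (List.ofFn L).flatten (∑ j, f j)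
  | prod {D m : ℕ} {L : Fin m → List (Fin n)} {f : Fin m → MvPolynomial (Fin n) ℂ}
      (h : ∀ j, Formula n D (L j) (f j)) : Formula n (D + 1) (List.ofFn L).flatten (∏ j, f j)

/-! ### Proofs -/

theorem T_eq (W : ℕ) : T W = Pool.Agent.Helper4.RO.Tb W := rfl

theorem cluster_eq : ∀ k t : ℕ, cluster k t = Pool.Agent.Helper91.Clus.TT k t := by
  intro k
  induction k with
  | zero => intro t; rfl
  | succ k ih => intro t; rw [cluster, Pool.Agent.Helper91.Clus.TT, ih, ih]

theorem changes_eq (k w : ℕ) : changes k w = Pool.Agent.Helper4.RK.trn k w := by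
  rw [changes, Pool.Agent.Helper4.RK.trn, cluster_eq, T_eq]

theorem level_eq (k w : ℕ) : level k w = Pool.Agent.Helper4.RK.levR k w := by
  rw [level, Pool.Agent.Helper4.RK.levR]
  exact Finset.sum_congr rfl fun s _ => changes_eq _ _

theorem levelOrb_eq (k w : ℕ) : levelOrb k w = ORB.levO k w := by
  rw [levelOrb, ORB.levO]
  refine Finset.sum_congr rfl fun s _ => ?_
  rw [ORB.trO, ORB.dm, changes_eq]

theorem blocks_eq (r q w k : ℕ) : blocks r q w k = ORB.blk r q w k := by
  rw [blocks, level_eq, levelOrb_eq, ORB.blk, ORB.KA, Pool.Agent.Helper4.RK.KF,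
    Pool.Agent.Helper4.RK.Kmin]
  have h2 : params r q w k = Pool.Agent.Helper4.RK.MF r q w k := rfl
  rw [h2]

theorem hittingSet_eq (n r q w k s d : ℕ) :
    hittingSet n r q w k s d = ORB.oset n r q w k s d := by
  unfold hittingSet ORB.oset
  rw [blocks_eq]
  rfl

theorem orbits_sparse (n s : ℕ) : Orbits n (Sparse s) ⊆ ORB.SparseOrb n s := by
  rintro f ⟨m, L, b, hL, F, hF, rfl⟩
  exact ⟨m, L, b, F, hL, hF, rfl⟩

theorem orbits_alg (n r w k : ℕ) : Orbits n (Algebraic r w k) ⊆ ORB.ProgOrb n r w k := by
  rintro f ⟨m, L, b, hL, F, ⟨t, P, g, hP, hr, rfl⟩, rfl⟩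
  exact ⟨m, L, b, t, P, g, hL, hP, hr, rfl⟩

theorem hits {n r q w k s d : ℕ} (hw : 1 ≤ w) {f : MvPolynomial (Fin n) ℂ}
    (hf : f ∈ Divisors n r q w k s) (hd : f.totalDegree ≤ d) :
    ∃ a ∈ hittingSet n r q w k s d, eval (fun i => ((a i : ℤ) : ℂ)) f ≠ 0 := by
  obtain ⟨g, hg, h0, hfg⟩ := hf
  rw [hittingSet_eq]
  refine ORB.oset_hits hw (Submonoid.closure_mono ?_ hg) h0 hfg hd
  exact Set.union_subset_union (Set.union_subset_union (orbits_sparse n s) (orbits_alg n r w k))
    subset_rfl

theorem mem_divisors {n r q w k s : ℕ} {f : MvPolynomial (Fin n) ℂ}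
    (hf : f ∈ Orbits n (Sparse s) ∪ Orbits n (Algebraic r w k) ∪ Circuits n r q w k)
    (h0 : f ≠ 0) : f ∈ Divisors n r q w k s :=
  ⟨f, Submonoid.subset_closure hf, h0, dvd_rfl⟩

theorem sum_mem {n r q w k : ℕ} (P : Fin r → MvPolynomial (Fin n) ℂ)
    (hP : ∀ i, P i ∈ Products n q w k) : ∑ i, P i ∈ Circuits n r q w k := by
  refine ⟨r, P, ∑ i, MvPolynomial.X i, hP, ?_, ?_⟩
  · intro s
    have h := Fintype.card_le_of_embedding s
    rw [Fintype.card_fin, Fintype.card_fin] at h
    omega
  · rw [map_sum]
    exact Finset.sum_congr rfl fun i _ => (MvPolynomial.aeval_X _ _).symm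

theorem alg_mem {m r w k : ℕ} (P : Fin r → MvPolynomial (Fin m) ℂ)
    (hP : ∀ i, P i ∈ Programs m w k) (g : MvPolynomial (Fin r) ℂ) :
    aeval P g ∈ Algebraic r w k m := by
  refine ⟨r, P, g, hP, ?_, rfl⟩
  intro s
  have h := Fintype.card_le_of_embedding s
  rw [Fintype.card_fin, Fintype.card_fin] at h
  omega

theorem formula_pf {n D : ℕ} {L : List (Fin n)} {f : MvPolynomial (Fin n) ℂ}
    (h : Formula n D L f) : Pool.Agent.Helper4.RK.PF (Fin (2 * D + 1)) L f := by
  induction h with
  | leaf i p => exact Pool.Agent.Helper4.RK.PF.leaf i p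
  | @sum D m L f h ih =>
    exact (Pool.Agent.Helper4.RK.PF.sum_fin ih).reindex
      (finSumFinEquiv.trans (finCongr (by ring)))
  | @prod D m L f h ih =>
    have h1 : ∀ j, Pool.Agent.Helper4.RK.PF (Fin (2 * (D + 1) + 1)) (L j) (f j) := by
      intro j
      have h2 := Pool.Agent.Helper4.RK.PF.sum_fin (m := 1) (L := fun _ => L j)
        (f := fun _ => f j) fun _ => ih j
      simp only [List.ofFn_succ, List.ofFn_zero, List.flatten_cons, List.flatten_nil,
        List.append_nil, Finset.univ_unique, Finset.sum_const, Finset.card_singleton, one_smul]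
        at h2
      exact h2.reindex (finSumFinEquiv.trans (finCongr (by ring)))
    exact Pool.Agent.Helper4.RK.PF.prod_fin h1

/-- Size, coordinates, hitting property; the nonzero polynomials of the three kinds are in the class;
polynomials in `r` programs; sums of `r` products of factors; formulas of depth `D` with univariate leaves in
which every variable occurs at most `k` times and layered branching programs of width `w` with univariate
labels in which every variable occurs on at most `k` edges are programs of constant width. -/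
theorem result (r q w k : ℕ) (hw : 1 ≤ w) :
    (∃ C : ℕ, ∀ n s d : ℕ,
      (hittingSet n r q w k s d).card ≤
        C * (n + s + d + 2) ^ (44 * (blocks r q w k + 1)) ∧
      ∀ a ∈ hittingSet n r q w k s d, ∀ i, |a i| ≤ 2 ^ (C * (n + s + d + 2) ^ 43)) ∧
    (∀ n s d : ℕ, ∀ f ∈ Divisors n r q w k s, f.totalDegree ≤ d →
      ∃ a ∈ hittingSet n r q w k s d, eval (fun i => ((a i : ℤ) : ℂ)) f ≠ 0) ∧
    (∀ n s : ℕ, ∀ f ∈ Orbits n (Sparse s) ∪ Orbits n (Algebraic r w k) ∪ Circuits n r q w k,
      f ≠ 0 → f ∈ Divisors n r q w k s) ∧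
    (∀ (m : ℕ) (P : Fin r → MvPolynomial (Fin m) ℂ), (∀ i, P i ∈ Programs m w k) →
      ∀ g : MvPolynomial (Fin r) ℂ, aeval P g ∈ Algebraic r w k m) ∧
    (∀ (n : ℕ) (h : Fin r → List (MvPolynomial (Fin n) ℂ)),
      (∀ i, ∀ f ∈ h i, f ∈ Factors n q w k) → ∑ i, (h i).prod ∈ Circuits n r q w k) ∧
    (∀ (m D : ℕ) (L : List (Fin m)) (f : MvPolynomial (Fin m) ℂ), Formula m D L f →
      (∀ i, L.count i ≤ k) → f ∈ Programs m (2 * D + 1) k) ∧
    (∀ (m N : ℕ) (v : Fin N → Fin w → Fin w → Fin m) (p : Fin N → Fin w → Fin w → Polynomial ℂ),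
      (∀ x, (Finset.univ.filter fun e : Fin N × Fin w × Fin w =>
        v e.1 e.2.1 e.2.2 = x).card ≤ k) →
      ∀ i j : Fin w, (List.ofFn fun l => Matrix.of fun i j =>
        Polynomial.aeval (X (v l i j) : MvPolynomial (Fin m) ℂ) (p l i j)).prod i j ∈
          Programs m (2 * w) k) := by
  obtain ⟨C₁, h₁⟩ := ORB.card_oset_le r q w k
  obtain ⟨C₂, h₂⟩ := ORB.abs_oset_le r q w k
  refine ⟨⟨max C₁ C₂, fun n s d => ⟨?_, fun a ha i => ?_⟩⟩, fun n s d f hf hd => hits hw hf hd,
    fun n s f hf h0 => mem_divisors hf h0, fun m P hP g => alg_mem P hP g, ?_, ?_, ?_⟩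
  · rw [hittingSet_eq, blocks_eq]
    exact (h₁ n s d).trans (Nat.mul_le_mul_right _ (le_max_left _ _))
  · rw [hittingSet_eq] at ha
    have h3 := h₂ n s d a ha i
    refine h3.trans ?_
    exact pow_le_pow_right₀ (by norm_num) (Nat.mul_le_mul_right _ (le_max_right _ _))
  · intro n h hh
    exact sum_mem _ fun i => Submonoid.list_prod_mem _ fun f hf =>
      Submonoid.subset_closure (hh i f hf)
  · intro m D L f hf hL
    exact (formula_pf hf).rki hL
  · intro m N v p hv i j
    exact ORB.abp_isRK v p hv i j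

end Pool.Agent.Results.MP_c2aa42_lc.Orbits
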