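import Mathlib
import Pool.Agent.Helper16.KX.Main
import Pool.Agent.Helper16.KX.Light
import Pool.Agent.Helper43.LB.Alg

/-!
# Subexponential explicit hitting sets for formulas of subquadratic size, for their limits and
divisors, and for sums of products of such polynomials

`KB U ρ A` (Kalorkoti's measure): `A` is a polynomial in the variables of `U` and in polynomials without
the variables of `U`, no `ρ + 1` of which are algebraically independent. `Light n R τ q`: for every set
`U` of variables of `A` with `∑ i ∈ U, R i ≤ τ` there is a `ρ` with `KB U ρ A` and `ρ + |U| ≤ q`. General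
formulas with at most `R i` leaves in the variable `x_i`, straight-line programs of such formulas,
programs of width `w` and determinants are light; polynomials which are algebraic over `p` light
polynomials are light (with `p q` for `q`), divisors of light polynomials are light (with `q + 1` for `q`),
and light polynomials are closed under coefficientwise limits (of any degrees). The explicit set
`hittingSet n r q m s d` hits every nonzero polynomial `f` of total degree at most `d` which divides some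
nonzero `g(P_1, ..., P_k)`, where the `P_i` are products of any number of light polynomials, no `r + 1`
of the `P_i` being algebraically independent, as soon as `∑ i, min (R i) (m + 1) ≤ s`. For `r = 1`,
`m = ⌊√s⌋`, `q = 10 m + 1` it hits all limits of formulas with at most `s` leaves and their divisors.

The generator is `x_i = u_b + ∑ j < Q, z_j ((i + 1) y_b) ^ (j + 1) + ∑ j < r, v_j ∏ l ≠ i, (w_j - l)`, `b` the
block of `i` for `2 ⌊s / (m + 1)⌋` cuts, with `Q = (r + 1) q`: all blocks share the long seed `z`, as in the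
generators of Nisan-Zuckerman and Impagliazzo-Meka-Zuckerman.
-/

namespace Pool.Agent.Results.MP_c2aa42_lc.SubquadraticFormulas

open MvPolynomial Finset Filter Topology
open Pool.Agent.Helper16.KAL (Fm SLP progReads progVal detVal)
open Pool.Agent.Helper16.KX (hit Light)

/-- The number of seeds shared by all blocks. -/
def seeds (r q : ℕ) : ℕ := (r + 1) * q

/-- The number of cuts. -/
def cuts (m s : ℕ) : ℕ := 2 * (s / (m + 1))

/-- The hitting set. -/
def hittingSet (n r q m s d : ℕ) : Finset (Fin n → ℤ) := hit n (seeds r q) (cuts m s) r d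

/-- Polynomials in finite products of elements of `L`, no `r + 1` of the products being
algebraically independent. -/
def Circuits (n r : ℕ) (L : Set (MvPolynomial (Fin n) ℂ)) : Set (MvPolynomial (Fin n) ℂ) :=
  {f | ∃ (k : ℕ) (P : Fin k → MvPolynomial (Fin n) ℂ) (g : MvPolynomial (Fin k) ℂ),
    (∀ i, P i ∈ Submonoid.closure L) ∧
    (∀ s : Fin (r + 1) → Fin k, ¬ AlgebraicIndependent ℂ fun i => P (s i)) ∧
    f = aeval P g}

/-- Formulas. The leaves are univariate polynomials in a variable, and constants. -/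
inductive Formula (n : ℕ)
  | leaf (i : Fin n) (p : Polynomial ℂ)
  | const (a : ℂ)
  | add (P Q : Formula n)
  | mul (P Q : Formula n)

/-- The polynomial computed by a formula. -/
noncomputable def Formula.value {n : ℕ} : Formula n → MvPolynomial (Fin n) ℂ
  | .leaf i p => Polynomial.aeval (X i) p
  | .const a => C a
  | .add P Q => P.value + Q.value
  | .mul P Q => P.value * Q.value

/-- The number of leaves. -/
def Formula.leaves {n : ℕ} : Formula n → ℕ
  | .leaf _ _ => 1
  | .const _ => 1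
  | .add P Q => P.leaves + Q.leaves
  | .mul P Q => P.leaves + Q.leaves

theorem hits {n r q m s d : ℕ} (R : Fin n → ℕ) (hR : ∑ i, min (R i) (m + 1) ≤ s)
    {g : MvPolynomial (Fin n) ℂ} (hg : g ∈ Circuits n r (Light n R ((r + 1) * m) q))
    (h0 : g ≠ 0) {f : MvPolynomial (Fin n) ℂ} (hf : f ∣ g) (hd : f.totalDegree ≤ d) :
    ∃ a ∈ hittingSet n r q m s d, eval (fun i => ((a i : ℤ) : ℂ)) f ≠ 0 := by
  have hg' : g ∈ Pool.Agent.Helper16.KX.Circuits n r 1 (Light n R ((r + 1) * m) q) := by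
    obtain ⟨k, P, G, hP, hr, rfl⟩ := hg
    refine ⟨k, P, G, fun i => ?_, hr, rfl⟩
    refine Submonoid.closure_mono ?_ (hP i)
    intro x hx
    exact ⟨fun _ => x, X 0, fun _ => hx, (aeval_X (fun _ => x) 0).symm⟩
  obtain ⟨c, z, y, u, v, w, h⟩ := Pool.Agent.Helper16.KX.exists_point (t := cuts m s) R
    (Nat.mul_le_mul_left 2 (Nat.div_le_div_right hR)) g hg' h0
  have hs : (r + 1) * 1 * q = seeds r q := by rw [mul_one, seeds]
  rw [hittingSet, ← hs]
  refine Pool.Agent.Helper16.KX.hit_hits f hd c ⟨z, y, u, v, w, ?_⟩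
  obtain ⟨g', rfl⟩ := hf
  intro h1
  apply h
  rw [map_mul]
  exact mul_eq_zero_of_left h1 _

theorem sum_mem {n r : ℕ} (L : Set (MvPolynomial (Fin n) ℂ))
    (h : Fin r → List (MvPolynomial (Fin n) ℂ)) (hh : ∀ i, ∀ x ∈ h i, x ∈ L) :
    ∑ i, (h i).prod ∈ Circuits n r L := by
  refine ⟨r, fun i => (h i).prod, ∑ i, X i, ?_, ?_, ?_⟩
  · intro i
    exact Submonoid.list_prod_mem _ fun x hx => Submonoid.subset_closure (hh i x hx)
  · intro s hs
    have h1 : Function.Injective s := by
      intro i j hij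
      apply hs.injective
      change (h (s i)).prod = (h (s j)).prod
      rw [hij]
    have h2 := Fintype.card_le_of_injective s h1
    rw [Fintype.card_fin, Fintype.card_fin] at h2
    omega
  · rw [map_sum]
    exact Finset.sum_congr rfl fun i _ =>
      (MvPolynomial.aeval_X (fun i => (h i).prod) i).symm

theorem mem_circuits_one {n : ℕ} {L : Set (MvPolynomial (Fin n) ℂ)} {g : MvPolynomial (Fin n) ℂ}
    (hg : g ∈ L) : g ∈ Circuits n 1 L := by
  refine ⟨1, fun _ => g, X 0, fun _ => Submonoid.subset_closure hg, fun s hs => ?_,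
    (MvPolynomial.aeval_X (fun _ : Fin 1 => g) 0).symm⟩
  have h1 : (0 : Fin (1 + 1)) = 1 := hs.injective rfl
  exact absurd h1 (by decide)

/-- A formula as a formula of a program without nodes. -/
def Formula.toFm {n : ℕ} : Formula n → Fm n 1
  | .leaf i p => .leaf i p
  | .const a => .const a
  | .add P Q => .add P.toFm Q.toFm
  | .mul P Q => .mul P.toFm Q.toFm

theorem value_toFm {n : ℕ} (h : Fin 1 → MvPolynomial (Fin n) ℂ) (P : Formula n) :
    P.toFm.value h = P.value := by
  induction P with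
  | leaf i p => rfl
  | const a => rfl
  | add P Q hP hQ =>
    change P.toFm.value h + Q.toFm.value h = P.value + Q.value
    rw [hP, hQ]
  | mul P Q hP hQ =>
    change P.toFm.value h * Q.toFm.value h = P.value * Q.value
    rw [hP, hQ]

theorem refs_toFm {n : ℕ} (P : Formula n) : P.toFm.refs = 0 := by
  induction P with
  | leaf i p => rfl
  | const a => rfl
  | add P Q hP hQ =>
    change P.toFm.refs + Q.toFm.refs = 0
    rw [hP, hQ]
  | mul P Q hP hQ =>
    change P.toFm.refs + Q.toFm.refs = 0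
    rw [hP, hQ]

theorem below_toFm {n : ℕ} (j : Fin 1) (P : Formula n) : P.toFm.Below j := by
  induction P with
  | leaf i p => trivial
  | const a => trivial
  | add P Q hP hQ => exact ⟨hP, hQ⟩
  | mul P Q hP hQ => exact ⟨hP, hQ⟩

theorem sum_reads {n : ℕ} (P : Formula n) : ∑ i, P.toFm.reads i ≤ P.leaves := by
  induction P with
  | leaf i p =>
    change ∑ j, (if i = j then 1 else 0) ≤ 1
    simp
  | const a =>
    change ∑ _j : Fin n, 0 ≤ 1
    simp
  | add P Q hP hQ =>
    change ∑ i, (P.toFm.reads i + Q.toFm.reads i) ≤ P.leaves + Q.leaves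
    rw [Finset.sum_add_distrib]
    exact Nat.add_le_add hP hQ
  | mul P Q hP hQ =>
    change ∑ i, (P.toFm.reads i + Q.toFm.reads i) ≤ P.leaves + Q.leaves
    rw [Finset.sum_add_distrib]
    exact Nat.add_le_add hP hQ

theorem formula_light {n : ℕ} (τ : ℕ) {R : Fin n → ℕ} (P : Formula n)
    (hR : ∀ i, P.toFm.reads i ≤ R i) : P.value ∈ Light n R τ (5 * τ + 1) := by
  have h := Pool.Agent.Helper16.KX.slp_light (τ := τ) (q := 5 * τ + 1) R
    (⟨fun _ => P.toFm, fun j => below_toFm j P⟩ : SLP n 1) (fun _ => P.value)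
    (fun j => (value_toFm _ P).symm) (X 0)
    (fun i => by
      change ∑ _j : Fin 1, P.toFm.reads i ≤ R i
      rw [Fin.sum_univ_one]
      exact hR i)
    (by
      change 5 * τ + 4 * (∑ _j : Fin 1, P.toFm.refs) + 1 ≤ 5 * τ + 1
      rw [Fin.sum_univ_one, refs_toFm])
  rwa [aeval_X] at h

/-- Limits of formulas with at most `s` leaves are light for leaf numbers of sum at most `s`. -/
theorem limit_light {n s : ℕ} (τ : ℕ) (F : ℕ → Formula n) (hF : ∀ t, (F t).leaves ≤ s)
    {g : MvPolynomial (Fin n) ℂ}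
    (hg : ∀ μ, Tendsto (fun t => coeff μ (F t).value) atTop (𝓝 (coeff μ g))) :
    ∃ R : Fin n → ℕ, ∑ i, R i ≤ s ∧ g ∈ Light n R τ (5 * τ + 1) := by
  have hs : ∀ t, ∑ i, (F t).toFm.reads i ≤ s := fun t => (sum_reads (F t)).trans (hF t)
  have hb : ∀ t i, (F t).toFm.reads i < s + 1 := fun t i =>
    Nat.lt_succ_of_le ((Finset.single_le_sum (fun _ _ => Nat.zero_le _)
      (Finset.mem_univ i)).trans (hs t))
  obtain ⟨R, hR⟩ := Finite.exists_infinite_fiber
    (fun (t : ℕ) (i : Fin n) => (⟨(F t).toFm.reads i, hb t i⟩ : Fin (s + 1)))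
  rw [Set.infinite_coe_iff] at hR
  obtain ⟨φ, hφ, hφR⟩ := Filter.extraction_of_frequently_atTop
    (Nat.frequently_atTop_iff_infinite.mpr hR)
  have hval : ∀ t i, (F (φ t)).toFm.reads i = (R i : ℕ) := by
    intro t i
    have h := congrFun (hφR t) i
    exact congrArg Fin.val h
  refine ⟨fun i => (R i : ℕ), ?_, ?_⟩
  · have h := hs (φ 0)
    simpa only [hval] using h
  · refine Pool.Agent.Helper43.LB.light_closed (A := fun t => (F (φ t)).value)
      (fun t => formula_light τ (F (φ t)) fun i => (hval t i).le) fun μ => ?_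
    exact (hg μ).comp hφ.tendsto_atTop

/-- The size of the hitting set for formulas with `s` leaves. -/
theorem card_sqrt (n s d : ℕ) :
    (hittingSet n 1 (10 * Nat.sqrt s + 1) (Nat.sqrt s) s d).card ≤
      (n + s + d + 2) ^ (32 * Nat.sqrt s + 10) := by
  refine (Pool.Agent.Helper16.KX.hit_card _ _ _ _ _).trans ?_
  set m := Nat.sqrt s with hm
  set N := n + s + d + 2 with hN
  have h0 : m * m ≤ s := Nat.sqrt_le s
  have h1 : s < (m + 1) * (m + 1) := Nat.lt_succ_sqrt s
  have hc : cuts m s ≤ 2 * m := by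
    have h2 : s / (m + 1) < m + 1 := Nat.div_lt_of_lt_mul h1
    rw [cuts]
    omega
  have hq : seeds 1 (10 * m + 1) = 20 * m + 2 := by
    rw [seeds]
    ring
  rw [hq]
  have hN1 : 1 ≤ N := by omega
  have hNm : m * m + 2 ≤ N := by omega
  have hQ : 20 * m + 2 ≤ N ^ 3 := by
    have h3 : (m * m + 2) ^ 3 ≤ N ^ 3 := Nat.pow_le_pow_left hNm 3
    refine le_trans ?_ h3
    rcases Nat.lt_or_ge m 2 with h4 | h4
    · interval_cases m <;> simp
    · have h5 : 2 * m ≤ m * m := Nat.mul_le_mul_right m h4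
      have h6 : 6 ≤ m * m + 2 := by omega
      have h7 : 6 * 6 ≤ (m * m + 2) * (m * m + 2) := Nat.mul_le_mul h6 h6
      calc 20 * m + 2 ≤ 36 * (2 * m + 2) := by omega
        _ ≤ (m * m + 2) * (m * m + 2) * (m * m + 2) := Nat.mul_le_mul h7 (by omega)
        _ = (m * m + 2) ^ 3 := by ring
  have hd1 : d + 1 ≤ N := by omega
  have hn1 : n + 1 ≤ N := by omega
  have hdQ : d * (20 * m + 2) + 1 ≤ N ^ 4 := by
    calc d * (20 * m + 2) + 1 ≤ d * N ^ 3 + N ^ 3 :=
          Nat.add_le_add (Nat.mul_le_mul_left d hQ) (Nat.one_le_pow _ _ hN1)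
      _ = (d + 1) * N ^ 3 := by ring
      _ ≤ N * N ^ 3 := Nat.mul_le_mul_right _ hd1
      _ = N ^ 4 := by ring
  have hdn : d * n + 1 ≤ N ^ 2 := by
    calc d * n + 1 ≤ (d + 1) * (n + 1) := by nlinarith
      _ ≤ N * N := Nat.mul_le_mul hd1 hn1
      _ = N ^ 2 := by ring
  calc (n + 1) ^ cuts m s * (d + 1) ^ (20 * m + 2) *
        ((d * (20 * m + 2) + 1) * (d + 1)) ^ (cuts m s + 1) * ((d + 1) * (d * n + 1)) ^ 1
      ≤ N ^ (2 * m) * N ^ (20 * m + 2) * (N ^ 5) ^ (2 * m + 1) * (N ^ 3) ^ 1 := by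
        refine Nat.mul_le_mul (Nat.mul_le_mul (Nat.mul_le_mul ?_ ?_) ?_) ?_
        · exact (Nat.pow_le_pow_left hn1 _).trans (Nat.pow_le_pow_right hN1 hc)
        · exact Nat.pow_le_pow_left hd1 _
        · refine (Nat.pow_le_pow_left ?_ _).trans
            (Nat.pow_le_pow_right (Nat.one_le_pow _ _ hN1) (Nat.succ_le_succ hc))
          calc (d * (20 * m + 2) + 1) * (d + 1) ≤ N ^ 4 * N := Nat.mul_le_mul hdQ hd1
            _ = N ^ 5 := by ring
        · refine Nat.pow_le_pow_left ?_ _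
          calc (d + 1) * (d * n + 1) ≤ N * N ^ 2 := Nat.mul_le_mul hd1 hdn
            _ = N ^ 3 := by ring
    _ = N ^ (32 * m + 10) := by
        rw [← pow_mul, ← pow_mul, ← pow_add, ← pow_add, ← pow_add]
        congr 1
        ring

theorem hits_limits {n s d : ℕ} (F : ℕ → Formula n) (hF : ∀ t, (F t).leaves ≤ s)
    {g : MvPolynomial (Fin n) ℂ}
    (hg : ∀ μ, Tendsto (fun t => coeff μ (F t).value) atTop (𝓝 (coeff μ g))) (h0 : g ≠ 0)
    {f : MvPolynomial (Fin n) ℂ} (hf : f ∣ g) (hd : f.totalDegree ≤ d) :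
    ∃ a ∈ hittingSet n 1 (10 * Nat.sqrt s + 1) (Nat.sqrt s) s d,
      eval (fun i => ((a i : ℤ) : ℂ)) f ≠ 0 := by
  obtain ⟨R, hR, hL⟩ := limit_light ((1 + 1) * Nat.sqrt s) F hF hg
  have hq : 5 * ((1 + 1) * Nat.sqrt s) + 1 = 10 * Nat.sqrt s + 1 := by ring
  rw [hq] at hL
  exact hits R ((Finset.sum_le_sum fun i _ => min_le_left _ _).trans hR) (mem_circuits_one hL)
    h0 hf hd

theorem light_mono {n : ℕ} {R : Fin n → ℕ} {τ q q' : ℕ} (h : q' ≤ q)
    {f : MvPolynomial (Fin n) ℂ} (hf : f ∈ Light n R τ q') : f ∈ Light n R τ q := by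
  intro U hU hw
  obtain ⟨ρ, h1, h2⟩ := hf U hU hw
  exact ⟨ρ, h1, h2.trans h⟩

/-- The explicit set `hittingSet n 1 (10 ⌊√s⌋ + 1) ⌊√s⌋ s d` has at most
`(n + s + d + 2) ^ (32 ⌊√s⌋ + 10)` elements and hits every polynomial of total degree at most `d` which
divides a nonzero coefficientwise limit of formulas with at most `s` leaves. In general: size and
coordinates of the explicit hitting set, its hitting property, and the classes contained in
`Circuits` and `Light`; `Light` is closed under coefficientwise limits, and contains divisors and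
polynomials algebraic over light polynomials. -/
theorem result (n r q m s d : ℕ) :
    (hittingSet n 1 (10 * Nat.sqrt s + 1) (Nat.sqrt s) s d).card ≤
      (n + s + d + 2) ^ (32 * Nat.sqrt s + 10) ∧
    (∀ (F : ℕ → Formula n) (g : MvPolynomial (Fin n) ℂ), (∀ t, (F t).leaves ≤ s) →
      (∀ μ, Tendsto (fun t => coeff μ (F t).value) atTop (𝓝 (coeff μ g))) → g ≠ 0 →
      ∀ f, f ∣ g → f.totalDegree ≤ d →
        ∃ a ∈ hittingSet n 1 (10 * Nat.sqrt s + 1) (Nat.sqrt s) s d,
          eval (fun i => ((a i : ℤ) : ℂ)) f ≠ 0) ∧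
    (hittingSet n r q m s d).card ≤ (n + 1) ^ cuts m s * (d + 1) ^ seeds r q *
      ((d * seeds r q + 1) * (d + 1)) ^ (cuts m s + 1) * ((d + 1) * (d * n + 1)) ^ r ∧
    (∀ a ∈ hittingSet n r q m s d, ∀ i, |a i| ≤
      d + seeds r q * d * (n * d * seeds r q) ^ seeds r q + r * d * (d * n + n) ^ n) ∧
    (∀ R : Fin n → ℕ, ∑ i, min (R i) (m + 1) ≤ s →
      ∀ g ∈ Circuits n r (Light n R ((r + 1) * m) q), g ≠ 0 →
      ∀ f, f ∣ g → f.totalDegree ≤ d →
        ∃ a ∈ hittingSet n r q m s d, eval (fun i => ((a i : ℤ) : ℂ)) f ≠ 0) ∧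
    (∀ (L : Set (MvPolynomial (Fin n) ℂ)) (h : Fin r → List (MvPolynomial (Fin n) ℂ)),
      (∀ i, ∀ x ∈ h i, x ∈ L) → ∑ i, (h i).prod ∈ Circuits n r L) ∧
    (∀ (R : Fin n → ℕ) (τ : ℕ) (F : ℕ → MvPolynomial (Fin n) ℂ) (f : MvPolynomial (Fin n) ℂ),
      (∀ t, F t ∈ Light n R τ q) →
      (∀ μ, Tendsto (fun t => coeff μ (F t)) atTop (𝓝 (coeff μ f))) → f ∈ Light n R τ q) ∧
    (∀ (R : Fin n → ℕ) (τ q' : ℕ) (g f : MvPolynomial (Fin n) ℂ), g ∈ Light n R τ q' → g ≠ 0 →
      f ∣ g → q' + 1 ≤ q → f ∈ Light n R τ q) ∧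
    (∀ (R : Fin n → ℕ) (τ p q' : ℕ) (A : Fin p → MvPolynomial (Fin n) ℂ),
      (∀ j, A j ∈ Light n R τ q') → p * q' ≤ q → ∀ f : MvPolynomial (Fin n) ℂ,
      IsAlgebraic (Algebra.adjoin ℂ (Set.range A)) f → f ∈ Light n R τ q) ∧
    (∀ (R : Fin n → ℕ) (τ c : ℕ) (P : SLP n c) (h : Fin c → MvPolynomial (Fin n) ℂ),
      P.Vals h → (∀ i, P.reads i ≤ R i) → 5 * τ + 4 * P.refs + c ≤ q →
      ∀ F : MvPolynomial (Fin c) ℂ, aeval h F ∈ Light n R τ q) ∧
    (∀ (R : Fin n → ℕ) (τ w : ℕ) (L : List (Fin n × Matrix (Fin w) (Fin w) (Polynomial ℂ)))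
      (a b : Fin w → ℂ), (∀ i, progReads L i ≤ R i) → (w ^ 2 + 1) * τ + w ^ 2 ≤ q →
      progVal L a b ∈ Light n R τ q) ∧
    (∀ (R : Fin n → ℕ) (τ N k : ℕ) (A : Matrix (Fin N) (Fin N) ℂ) (U : Matrix (Fin N) (Fin k) ℂ)
      (V : Matrix (Fin k) (Fin N) ℂ) (v : Fin k → Fin n) (p : Fin k → Polynomial ℂ),
      (∀ i, (univ.filter (fun j => v j = i)).card ≤ R i) → (τ + 1) ^ 2 ≤ q →
      detVal A U V v p ∈ Light n R τ q) := by
  refine ⟨card_sqrt n s d, fun F g hF hg h0 f hf hd => hits_limits F hF hg h0 hf hd,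
    Pool.Agent.Helper16.KX.hit_card _ _ _ _ _, Pool.Agent.Helper16.KX.hit_bound _ _ _ _ _,
    fun R hR g hg h0 f hf hd => hits R hR hg h0 hf hd, fun L h hh => sum_mem L h hh,
    fun R τ F f hF hl => Pool.Agent.Helper43.LB.light_closed hF hl,
    fun R τ q' g f hg h0 hf hq => light_mono hq (Pool.Agent.Helper43.LB.light_dvd h0 hg hf),
    fun R τ p q' A hA hq f hf => light_mono hq (Pool.Agent.Helper43.LB.light_alg hA hf),
    fun R τ c P h hv hR hq F => Pool.Agent.Helper16.KX.slp_light R P h hv F hR hq,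
    fun R τ w L a b hR hq => Pool.Agent.Helper16.KX.prog_light R L a b hR hq,
    fun R τ N k A U V v p hR hq => Pool.Agent.Helper16.KX.det_light R A U V v p hR hq⟩

end Pool.Agent.Results.MP_c2aa42_lc.SubquadraticFormulas
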