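import Mathlib
import Pool.Agent.Helper88.LR.Main
import Pool.Agent.Helper88.LR.Size
import Pool.Agent.Helper88.LR.Abs
import Pool.Agent.Helper88.LR.Ranks

/-!
# Polynomial-size explicit hitting sets for depth-4 circuits with wide factors, and for their factors

`AOR.AO ρ f`: the rank of `f` is at most `ρ` across every partition of the variables (any-order
read-once oblivious branching programs of width `ρ`). `LRH.LR r w f`: the rank is at most `w` across the
partitions `(S, complement)` with `|S| ≤ r`. `LRH.Factors n r κ w ρ δ`: arbitrary polynomials `F` in `κ`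
polynomials `A j` of degree at most `δ` with `AO ρ (A j)` and `LR r w (A j)`. `LRH.Circuits n r κ w ρ δ`: the
divisors of the nonzero polynomials `g (P 1, …, P m)` in finite products `P i` of factors, any `m` and `g`,
where no `r + 1` of the `P i` are algebraically independent. `LRH.hset n r κ w ρ δ d` is an explicit
(computable) finite set of integer points.

For fixed `r, κ, w` the set has size polynomial in `n, ρ, δ, d`, its points have polynomial bit length, and
it hits every `f` of degree at most `d` in `Circuits`. The number of factors, the degrees of `F`, `g` and of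
the products are not bounded.
-/

set_option autoImplicit false

namespace Pool.Agent.Results.MP_c2aa42_lc.WideDepthFour

open MvPolynomial LRH
open AOR (AO)

theorem mem_circuits {n r κ w ρ δ : ℕ} (h : Fin r → List (MvPolynomial (Fin n) ℂ))
    (hh : ∀ i, ∀ q ∈ h i, q ∈ Factors n r κ w ρ δ) {f : MvPolynomial (Fin n) ℂ}
    (h0 : ∑ i, (h i).prod ≠ 0) (hf : f ∣ ∑ i, (h i).prod) : f ∈ Circuits n r κ w ρ δ := by
  have h1 : aeval (fun i => (h i).prod) (∑ i, X i : MvPolynomial (Fin r) ℂ) =
      ∑ i, (h i).prod := by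
    rw [map_sum]
    exact Finset.sum_congr rfl fun i _ => MvPolynomial.aeval_X _ _
  refine ⟨r, fun i => (h i).prod, ∑ i, X i, fun i => Submonoid.list_prod_mem _ fun q hq =>
    Submonoid.subset_closure (hh i q hq), ?_, ?_, ?_⟩
  · intro s
    have h2 := Fintype.card_le_of_embedding s
    rw [Fintype.card_fin, Fintype.card_fin] at h2
    omega
  · rw [h1]
    exact h0
  · rw [h1]
    exact hf

/-- Size and coordinates; hitting property; all divisors of the nonzero sums of `r` products of factors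
are in the class; ranks of polynomials of individual degree at most `D`, of polynomials with at most
`s` terms, of polynomials of degree at most `D`. -/
theorem result (r κ w : ℕ) :
    (∃ C : ℕ, ∀ n ρ δ d : ℕ,
      (hset n r κ w ρ δ d).card ≤ C * (n + ρ + δ + d + 2) ^
        ((15 * par r κ w + 8) * (2 * (r + par r κ w) + 1)) ∧
      ∀ a ∈ hset n r κ w ρ δ d, ∀ i, |a i| ≤
        2 ^ (C * (n + ρ + δ + d + 2) ^ (30 * par r κ w + 14))) ∧
    (∀ (n ρ δ d : ℕ), ∀ f ∈ Circuits n r κ w ρ δ, f.totalDegree ≤ d →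
      ∃ a ∈ hset n r κ w ρ δ d, eval (fun i => ((a i : ℤ) : ℂ)) f ≠ 0) ∧
    (∀ (n ρ δ : ℕ) (h : Fin r → List (MvPolynomial (Fin n) ℂ)),
      (∀ i, ∀ q ∈ h i, q ∈ Factors n r κ w ρ δ) → ∑ i, (h i).prod ≠ 0 →
        ∀ f, f ∣ ∑ i, (h i).prod → f ∈ Circuits n r κ w ρ δ) ∧
    (∀ (n D : ℕ) (q : MvPolynomial (Fin n) ℂ), (∀ l, q.degreeOf l ≤ D) →
      q.totalDegree ≤ n * D ∧ LR r ((D + 1) ^ r) q) ∧
    (∀ (n s : ℕ) (q : MvPolynomial (Fin n) ℂ), q.support.card ≤ s → AO s q) ∧
    (∀ (n D : ℕ) (q : MvPolynomial (Fin n) ℂ), q.totalDegree ≤ D →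
      AO ((n + 1) ^ D) q ∧ LR r ((r + 1) ^ D) q) := by
  obtain ⟨C₁, h₁⟩ := card_hset_le r κ w
  obtain ⟨C₂, h₂⟩ := abs_hset_le r κ w
  refine ⟨⟨max C₁ C₂, fun n ρ δ d => ⟨?_, fun a ha i => ?_⟩⟩, fun n ρ δ d f hf hd => hset_hits hf hd,
    fun n ρ δ h hh h0 f hf => mem_circuits h hh h0 hf,
    fun n D q hq => ⟨totalDegree_le_of_degreeOf hq, lr_of_degreeOf hq⟩,
    fun n s q hq => ao_of_support hq,
    fun n D q hq => ⟨ao_of_totalDegree hq, lr_of_totalDegree hq⟩⟩
  · exact (h₁ n ρ δ d).trans (Nat.mul_le_mul_right _ (le_max_left _ _))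
  · have h3 := h₂ n ρ δ d a ha i
    refine h3.trans ?_
    push_cast
    exact pow_le_pow_right₀ (by norm_num) (Nat.mul_le_mul_right _ (le_max_right _ _))

end Pool.Agent.Results.MP_c2aa42_lc.WideDepthFour
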